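import Pool.Agent.Helper81.OP.Defs

/-!
# MP_ec87e6_co, module CHOR: a vertex of the piece adjacent to the whole attachment
-/

set_option autoImplicit false

open SimpleGraph
open scoped Classical

namespace Pool.Agent.Helper81.OP

section chor

variable {V : Type} {G : SimpleGraph V}

/-- walks inside `B` -/
theorem chor_walk' {B : Finset V} : ∀ {a b : ((B : Set V) : Type)},
    (G.induce (B : Set V)).Walk a b → ∃ p : G.Walk a.1 b.1, ∀ v ∈ p.support, v ∈ B := by
  intro a b q
  induction q with
  | nil =>
    rename_i a
    refine ⟨Walk.nil, fun v hv => ?_⟩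
    rw [Walk.support_nil, List.mem_singleton] at hv
    rw [hv]
    exact a.2
  | cons h q ih =>
    rename_i a b c
    obtain ⟨p, hp⟩ := ih
    have h' : G.Adj a.1 b.1 := h
    refine ⟨Walk.cons h' p, fun v hv => ?_⟩
    rw [Walk.support_cons, List.mem_cons] at hv
    rcases hv with hv | hv
    · rw [hv]; exact a.2
    · exact hp v hv

theorem chor_walk {B : Finset V} (hB : (G.induce (B : Set V)).Connected) {w x : V} (hw : w ∈ B)
    (hx : x ∈ B) : ∃ p : G.Walk w x, ∀ v ∈ p.support, v ∈ B := by
  obtain ⟨q⟩ := hB.preconnected ⟨w, hw⟩ ⟨x, hx⟩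
  exact chor_walk' q

/-- a shortest walk inside `B` from `w` to a neighbour of `s` -/
theorem chor_short {B : Finset V} {w s : V}
    (h : ∃ (x : V) (p : G.Walk w x), (∀ v ∈ p.support, v ∈ B) ∧ G.Adj s x) :
    ∃ (x : V) (p : G.Walk w x), (∀ v ∈ p.support, v ∈ B) ∧ G.Adj s x ∧
      ∀ (y : V) (q : G.Walk w y), (∀ v ∈ q.support, v ∈ B) → G.Adj s y → p.length ≤ q.length := by
  have h' : ∃ n : ℕ, ∃ (x : V) (p : G.Walk w x), (∀ v ∈ p.support, v ∈ B) ∧ G.Adj s x ∧
      p.length = n := by
    obtain ⟨x, p, h1, h2⟩ := h
    exact ⟨p.length, x, p, h1, h2, rfl⟩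
  obtain ⟨x, p, h1, h2, h3⟩ := Nat.find_spec h'
  refine ⟨x, p, h1, h2, fun y q g1 g2 => ?_⟩
  rw [h3]
  exact Nat.find_min' h' ⟨y, q, g1, g2, rfl⟩

theorem chor_take {u v : V} (p : G.Walk u v) (i : ℕ) {y : V} (hy : y ∈ (p.take i).support) :
    y ∈ p.support := by
  rw [Walk.mem_support_iff_exists_getVert] at hy
  obtain ⟨n, hn, -⟩ := hy
  rw [Walk.take_getVert] at hn
  rw [← hn]
  exact Walk.getVert_mem_support p _

theorem chor_drop {u v : V} (p : G.Walk u v) (i : ℕ) {y : V} (hy : y ∈ (p.drop i).support) :
    ∃ m, i + m ≤ max i p.length ∧ p.getVert (i + m) = y := by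
  rw [Walk.mem_support_iff_exists_getVert] at hy
  obtain ⟨n, hn, hn'⟩ := hy
  rw [Walk.drop_getVert] at hn
  refine ⟨n, ?_, hn⟩
  rw [Walk.drop_length] at hn'
  omega

theorem chor_edge {u v : V} (p : G.Walk u v) {i : ℕ} (hi : i < p.length) :
    s(p.getVert i, p.getVert (i + 1)) ∈ p.edges := by
  rw [← Walk.adj_toSubgraph_iff_mem_edges]
  exact Walk.toSubgraph_adj_getVert p hi

end chor

/-- CHOR: a vertex of `B` adjacent to the whole attachment -/
theorem st_CHOR : ST_CHOR := by
  intro V _ G hch B S hP
  have hne : B.Nonempty := by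
    obtain ⟨⟨x, hx⟩⟩ := hP.conn.nonempty
    exact ⟨x, hx⟩
  obtain ⟨w, hw, hmax⟩ := Finset.exists_max_image B (fun v => (S.filter fun s => G.Adj v s).card) hne
  refine ⟨w, hw, ?_⟩
  by_contra hcon
  have hcon' : ∃ s ∈ S, ¬ G.Adj w s := by
    by_contra h
    exact hcon fun s hs => by
      by_contra h'
      exact h ⟨s, hs, h'⟩
  obtain ⟨s, hs, hws⟩ := hcon'
  obtain ⟨x0, hx0, hsx0⟩ := hP.fu s hs
  obtain ⟨p0, hp0⟩ := chor_walk hP.conn hw hx0
  obtain ⟨x, p, hpB, hsx, hmin⟩ := chor_short (B := B) (w := w) (s := s) ⟨x0, p0, hp0, hsx0⟩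
  -- facts on the shortest walk
  have hsB : ∀ v ∈ S, v ∉ B := fun v hv hvB => Finset.disjoint_left.1 hP.dj hvB hv
  have F2 : ∀ i, i < p.length → ¬ G.Adj s (p.getVert i) := by
    intro i hi hadj
    have := hmin _ (p.take i) (fun v hv => hpB v (chor_take p i hv)) hadj
    rw [Walk.take_length] at this
    omega
  have hdropB : ∀ j, ∀ v ∈ (p.drop j).support, v ∈ B := by
    intro j v hv
    obtain ⟨m, -, hm⟩ := chor_drop p j hv
    rw [← hm]
    exact hpB _ (Walk.getVert_mem_support p _)
  have F3 : ∀ i j, i < j → j ≤ p.length → G.Adj (p.getVert i) (p.getVert j) → j = i + 1 := by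
    intro i j hij hj hadj
    have := hmin _ ((p.take i).append (Walk.cons hadj (p.drop j))) (fun v hv => by
      rw [Walk.mem_support_append_iff] at hv
      rcases hv with hv | hv
      · exact hpB v (chor_take p i hv)
      · rw [Walk.support_cons, List.mem_cons] at hv
        rcases hv with hv | hv
        · rw [hv]; exact hpB _ (Walk.getVert_mem_support p _)
        · exact hdropB j v hv) hsx
    rw [Walk.length_append, Walk.take_length, Walk.length_cons, Walk.drop_length] at this
    omega
  have F4 : ∀ i j, i < j → j ≤ p.length → p.getVert i ≠ p.getVert j := by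
    intro i j hij hj heq
    have := hmin _ ((p.take i).append ((p.drop j).copy heq.symm rfl)) (fun v hv => by
      rw [Walk.mem_support_append_iff] at hv
      rcases hv with hv | hv
      · exact hpB v (chor_take p i hv)
      · rw [Walk.support_copy] at hv
        exact hdropB j v hv) hsx
    rw [Walk.length_append, Walk.take_length, Walk.length_copy, Walk.drop_length] at this
    omega
  have hxB : x ∈ B := hpB x (Walk.end_mem_support p)
  -- every neighbour of `w` in `S` is a neighbour of `x`
  have key : ∀ t ∈ S, G.Adj w t → G.Adj x t := by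
    intro t ht hwt
    by_contra hxt
    -- the last index
    let P : ℕ → Prop := fun i => G.Adj t (p.getVert i)
    have hP0 : P 0 := by
      show G.Adj t (p.getVert 0)
      rw [Walk.getVert_zero]; exact hwt.symm
    obtain ⟨i, hi, hti, hlast⟩ : ∃ i, i ≤ p.length ∧ P i ∧ ∀ j, i < j → j ≤ p.length → ¬ P j := by
      refine ⟨Nat.findGreatest P p.length, Nat.findGreatest_le _,
        Nat.findGreatest_spec (Nat.zero_le _) hP0, fun j h1 h2 => ?_⟩
      exact Nat.findGreatest_is_greatest h1 h2
    have hti' : G.Adj t (p.getVert i) := hti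
    have hilt : i < p.length := by
      rcases lt_or_eq_of_le hi with h | h
      · exact h
      · exfalso
        rw [h, Walk.getVert_length] at hti'
        exact hxt hti'.symm
    have hst : G.Adj s t := by
      apply hP.cl s hs t ht
      rintro rfl
      exact hws hwt
    have hsB' := hsB s hs
    have htB' := hsB t ht
    -- the path
    have hinj : (p.drop i).IsPath := by
      rw [← Walk.IsPath.getVert_injOn_iff]
      intro a ha b hb hab
      simp only [Set.mem_ofPred_eq, Walk.drop_length] at ha hb
      rw [Walk.drop_getVert, Walk.drop_getVert] at hab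
      by_contra hne'
      rcases lt_or_gt_of_ne hne' with h | h
      · exact F4 (i + a) (i + b) (by omega) (by omega) hab
      · exact F4 (i + b) (i + a) (by omega) (by omega) hab.symm
    have hs1 : s ∉ (p.drop i).support := fun h => hsB' (hdropB i s h)
    have ht1 : t ∉ (p.drop i).support := fun h => htB' (hdropB i t h)
    have hconc : ((p.drop i).concat hsx.symm).IsPath := hinj.concat hs1 hsx.symm
    have hts : t ≠ s := fun h => hst.ne h.symm
    have hpath : (Walk.cons hti' ((p.drop i).concat hsx.symm)).IsPath := by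
      rw [Walk.cons_isPath_iff]
      refine ⟨hconc, ?_⟩
      rw [Walk.support_concat, List.mem_append, List.mem_singleton]
      rintro (h | h)
      · exact ht1 h
      · exact hts h
    have hcyc : (Walk.cons hst (Walk.cons hti' ((p.drop i).concat hsx.symm))).IsCycle := by
      rw [Walk.cons_isCycle_iff]
      refine ⟨hpath, ?_⟩
      rw [Walk.edges_cons, Walk.edges_concat, List.mem_cons, List.concat_eq_append, List.mem_append,
        List.mem_singleton]
      rintro (h | h | h)
      · rw [Sym2.eq_iff] at h
        rcases h with ⟨h, -⟩ | ⟨h, -⟩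
        · exact hts h.symm
        · exact hsB' (by rw [h]; exact hpB _ (Walk.getVert_mem_support p _))
      · exact hs1 (Walk.fst_mem_support_of_mem_edges _ h)
      · rw [Sym2.eq_iff] at h
        rcases h with ⟨h, -⟩ | ⟨-, h⟩
        · exact hsB' (by rw [h]; exact hxB)
        · exact htB' (by rw [h]; exact hxB)
    obtain ⟨a, ha, b, hb, hab, hnot⟩ := hch s _ hcyc (by
      rw [Walk.length_cons, Walk.length_cons, Walk.length_concat, Walk.drop_length]
      omega)
    apply hnot
    rw [Walk.support_cons, Walk.support_cons, Walk.support_concat, List.mem_cons, List.mem_cons,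
      List.mem_append, List.mem_singleton] at ha hb
    rw [Walk.edges_cons, Walk.edges_cons, Walk.edges_concat, List.mem_cons, List.mem_cons,
      List.concat_eq_append, List.mem_append, List.mem_singleton]
    have ha' : a = s ∨ a = t ∨ ∃ m, i + m ≤ p.length ∧ p.getVert (i + m) = a := by
      rcases ha with h | h | h | h
      · exact Or.inl h
      · exact Or.inr (Or.inl h)
      · obtain ⟨m, h1, h2⟩ := chor_drop p i h
        exact Or.inr (Or.inr ⟨m, by omega, h2⟩)
      · exact Or.inl h
    have hb' : b = s ∨ b = t ∨ ∃ m, i + m ≤ p.length ∧ p.getVert (i + m) = b := by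
      rcases hb with h | h | h | h
      · exact Or.inl h
      · exact Or.inr (Or.inl h)
      · obtain ⟨m, h1, h2⟩ := chor_drop p i h
        exact Or.inr (Or.inr ⟨m, by omega, h2⟩)
      · exact Or.inl h
    have hsx' : ∀ m, i + m ≤ p.length → G.Adj s (p.getVert (i + m)) → p.getVert (i + m) = x := by
      intro m hm hadj
      have : i + m = p.length := by
        by_contra h
        exact F2 (i + m) (by omega) hadj
      rw [this, Walk.getVert_length]
    have htx' : ∀ m, i + m ≤ p.length → G.Adj t (p.getVert (i + m)) →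
        p.getVert (i + m) = p.getVert i := by
      intro m hm hadj
      have : m = 0 := by
        by_contra h
        exact hlast (i + m) (by omega) hm hadj
      rw [this, Nat.add_zero]
    have hedge : ∀ m, i + (m + 1) ≤ p.length →
        s(p.getVert (i + m), p.getVert (i + (m + 1))) ∈ (p.drop i).edges := by
      intro m hm
      have := chor_edge (p.drop i) (i := m) (by rw [Walk.drop_length]; omega)
      rwa [Walk.drop_getVert, Walk.drop_getVert] at this
    rcases ha' with rfl | rfl | ⟨m, hm, rfl⟩
    · rcases hb' with rfl | rfl | ⟨m, hm, rfl⟩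
      · exact absurd hab (G.loopless.irrefl _)
      · exact Or.inl rfl
      · right; right; right
        rw [hsx' m hm hab, Sym2.eq_swap]
    · rcases hb' with rfl | rfl | ⟨m, hm, rfl⟩
      · left; rw [Sym2.eq_swap]
      · exact absurd hab (G.loopless.irrefl _)
      · right; left
        rw [htx' m hm hab]
    · rcases hb' with rfl | rfl | ⟨m', hm', rfl⟩
      · right; right; right
        rw [hsx' m hm hab.symm]
      · right; left
        rw [htx' m hm hab.symm, Sym2.eq_swap]
      · right; right; left
        rcases lt_trichotomy m m' with h | h | h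
        · have h2 := F3 (i + m) (i + m') (by omega) hm' hab
          have h3 : m' = m + 1 := by omega
          rw [h3] at hm' ⊢
          exact hedge m hm'
        · rw [h] at hab
          exact absurd hab (G.loopless.irrefl _)
        · have h2 := F3 (i + m') (i + m) (by omega) hm hab.symm
          have h3 : m = m' + 1 := by omega
          rw [h3] at hm ⊢
          rw [Sym2.eq_swap]
          exact hedge m' hm
  -- contradiction with the choice of `w`
  have hlt : (S.filter fun s => G.Adj w s).card < (S.filter fun s => G.Adj x s).card := by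
    apply Finset.card_lt_card
    rw [Finset.ssubset_iff_of_subset]
    · refine ⟨s, Finset.mem_filter.2 ⟨hs, hsx.symm⟩, fun h => hws (Finset.mem_filter.1 h).2⟩
    · intro t ht
      rw [Finset.mem_filter] at ht ⊢
      exact ⟨ht.1, key t ht.1 ht.2⟩
  have := hmax x hxB
  omega

end Pool.Agent.Helper81.OP
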